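import Mathlib
import Pool.Agent.H83.BetaN

set_option autoImplicit false

namespace Pool.Agent.Results.MP_14365a_gt.BetaN

open Set Filter Topology

/-- `T'(X)`: functions continuous on some dense open set. -/
def T1 (X : Type) [TopologicalSpace X] : Set (X → ℝ) :=
  {f | ∃ U : Set X, IsOpen U ∧ Dense U ∧ ContinuousOn f U}

/-- `T''(X)`: functions continuous on some dense cozero set. -/
def T2 (X : Type) [TopologicalSpace X] : Set (X → ℝ) :=
  {f | ∃ h : C(X, ℝ), Dense {x | h x ≠ 0} ∧ ContinuousOn f {x | h x ≠ 0}}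

/-- Every closed set is a zero set. -/
def PerfNormal (X : Type) [TopologicalSpace X] : Prop :=
  ∀ C : Set X, IsClosed C → ∃ h : C(X, ℝ), C = {x | h x = 0}

theorem result : ∃ (X : Type) (_ : TopologicalSpace X), CompactSpace X ∧ T2Space X ∧
    ¬ PerfNormal X ∧ T1 X = T2 X := by
  refine ⟨Ultrafilter ℕ, inferInstance, inferInstance, inferInstance, fun hp => ?_, ?_⟩
  · obtain ⟨h, hh⟩ := hp {hyperfilter ℕ} isClosed_singleton
    have h0 : h (hyperfilter ℕ) = 0 := (hh ▸ mem_singleton _ : hyperfilter ℕ ∈ {x | h x = 0})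
    obtain ⟨q₁, q₂, hne, h1, h2⟩ := H83.BetaN.zero_two h _
      (Nat.cofinite_eq_atTop ▸ hyperfilter_le_cofinite) h0
    have e1 : q₁ ∈ ({hyperfilter ℕ} : Set _) := hh ▸ h1
    have e2 : q₂ ∈ ({hyperfilter ℕ} : Set _) := hh ▸ h2
    exact hne (e1.trans e2.symm)
  · obtain ⟨h, hh⟩ := H83.BetaN.exists_cozero
    have hc : ∀ f : Ultrafilter ℕ → ℝ, ContinuousOn f {x | h x ≠ 0} := fun f => by
      rw [hh]
      rintro _ ⟨n, rfl⟩
      refine ContinuousAt.continuousWithinAt ?_
      rw [ContinuousAt, (isOpen_singleton_iff_nhds_eq_pure _).1 (H83.BetaN.isOpen_pure n)]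
      exact tendsto_pure_nhds f _
    have hd : Dense {x | h x ≠ 0} := hh ▸ denseRange_pure
    ext f
    exact ⟨fun _ => ⟨h, hd, hc f⟩, fun _ => ⟨_, isOpen_ne_fun h.continuous continuous_const,
      hd, hc f⟩⟩

end Pool.Agent.Results.MP_14365a_gt.BetaN
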